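import Pool.Agent.H91.RF.Main

/-!
# MP_609556_an: asymptotic planarity for reaction-diffusion equations with invasion

The full statement of Q1: for every `f ∈ C¹([0,1])` with `f(0) = f(1) = 0`, every `ρ` for which
the invasion property holds and every measurable `U ⊆ ℝ^N` with `d_H(U, U_ρ) < ∞` satisfying
condition (C), every element of `Ω(u)` is one-dimensional, with a profile which is constant or
strictly monotone.
-/

open MeasureTheory Set Filter Topology Metric

namespace Pool.Agent.Results.MP_609556_an.Planarity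

open Pool.Agent.H91.RD

/-- asymptotic planarity (full answer to Q1) -/
theorem result (N : ℕ) (hN : 1 ≤ N) (f : ℝ → ℝ) (hf : Reaction f)
    (ρ : ℝ) (hρ : 0 < ρ) (hinv : Invades N f ρ)
    (U : Set (E N)) (hU : MeasurableSet U) (hd : hausdorffEDist U (core U ρ) ≠ ⊤) (hC : CondC U)
    (u : ℝ → E N → ℝ) (hu : IsSol f U u) (ψ : E N → ℝ) (hψ : OmegaLim u ψ) : Planar ψ :=
  Pool.Agent.H91.RF.K.FULL N f hN hf ρ hρ hinv U hU hd hC u hu ψ hψ

end Pool.Agent.Results.MP_609556_an.Planarity
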